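import Pool.Agent.Q139.Doyle.Final

/-!
# Doyle's question: locally univalent circle packings for the hexagonal complex

The definitions `dir`, `ang`, `angleSum`, `IsPackingLabel`, `IsPacking`, `LocallyUnivalent` are in
`Pool/Agent/Q139/Doyle/Defs.lean`.

Proof. Local univalence gives a ring lemma: the ratio of adjacent radii is bounded. So for a
lattice direction `e` the function `w(v) = log R(v + e) - log R(v)` is bounded. Both `R` and its
translate by `e` are packing labels, and the differential of the angle sums with respect to the
logarithms of the radii is a discrete Laplacian with symmetric positive bounded conductances. Hence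
`w` is harmonic on the triangular lattice with symmetric conductances which are bounded above. This
network is recurrent, so `w` is constant (an energy estimate with a logarithmic cutoff).
-/

set_option autoImplicit false

namespace Pool.Agent.Results.MP_5725d1_gt.LocallyUnivalentIsDoyle

open Pool.Agent.Q139.Doyle

/-- Every locally univalent circle packing for the hexagonal complex in the plane has a label of
the form `R(n, m) = c a^n b^m` with `a, b, c > 0`: it is a regular hexagonal packing
(`a = b = 1`) or a Doyle spiral. -/
theorem result (R : ℤ × ℤ → ℝ) (Z : ℤ × ℤ → ℂ) (h : IsPacking R Z) (hu : LocallyUnivalent R Z) :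
    ∃ a b c : ℝ, 0 < a ∧ 0 < b ∧ 0 < c ∧ ∀ n m : ℤ, R (n, m) = c * a ^ n * b ^ m :=
  final h hu

end Pool.Agent.Results.MP_5725d1_gt.LocallyUnivalentIsDoyle
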